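import Mathlib
import Pool.Agent.H55.CkM

namespace Pool.Agent.Results.MP_041d76_gt.SumNo

open Pool.Agent.H55.CkM Topology

/-- The class `C_k[M]` is not closed under arbitrary topological sums. -/
theorem result : ∃ (I : Type) (T : I → Type) (_ : ∀ i, TopologicalSpace (T i)),
    (∀ i, InCM (T i)) ∧ ¬ InCM (Σ i, T i) := by
  refine ⟨Set ℝ, fun Z => C(Z, ℝ), fun _ => inferInstance, inCM_ck, ?_⟩
  rintro ⟨X, Y, _, _, _, _, _, e, he⟩
  obtain ⟨Z, hZ⟩ := exists_not_emb X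
  exact hZ Y _ (he.comp (IsEmbedding.sigmaMk (σ := fun Z : Set ℝ => C(Z, ℝ)) (i := Z)))

end Pool.Agent.Results.MP_041d76_gt.SumNo
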